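import Pool.Agent.Lib.MP_b5021c_nt.IfaceB

/-! Row FCT: factorisation of a stable unitary element. -/

set_option autoImplicit false

namespace Pool.Agent.B5.H78

open Pool.Agent.B5

section

variable {O : Type} [CommRing O] [IsDomain O] [IsPrincipalIdealRing O] [Coef O]
  {L : Type} [AddCommGroup L] [Module.Free ℤ L] [Module.Finite ℤ L]

omit [IsDomain O] [IsPrincipalIdealRing O] [Coef O] [Module.Free ℤ L] [Module.Finite ℤ L] in
theorem mon_mul_mon_neg (b : L) : (mon b * mon (-b) : AO O L) = 1 := by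
  unfold mon
  rw [AddMonoidAlgebra.single_mul_single, add_neg_cancel, mul_one]
  rfl

theorem associated_isUnit_mul {A : Type} [CommRing A] {u : A} (hu : IsUnit u) (p : A) :
    Associated (u * p) p := by
  obtain ⟨v, rfl⟩ := hu
  exact ⟨v⁻¹, by rw [mul_comm (v : A) p, mul_assoc, Units.mul_inv, mul_one]⟩

omit [IsDomain O] [IsPrincipalIdealRing O] [Coef O] [Module.Free ℤ L] [Module.Finite ℤ L] in
theorem isUnit_mon (b : L) : IsUnit (mon b : AO O L) :=
  IsUnit.of_mul_eq_one (mon (-b)) (mon_mul_mon_neg b)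

omit [IsDomain O] [IsPrincipalIdealRing O] [Coef O] [Module.Free ℤ L] [Module.Finite ℤ L] in
theorem eq_cst_of_not_wdep {G : AO O L} (h : ¬ Wdep G) (h0 : G.coeff 0 ≠ 0) :
    G = cst (G.coeff 0) := by
  apply AddMonoidAlgebra.ext
  apply Finsupp.ext
  intro a
  unfold cst
  rcases eq_or_ne a 0 with rfl | ha
  · simp
  · have h1 : G.coeff a = 0 := by
      by_contra hcon
      exact h ⟨a, hcon, 0, h0, ha⟩
    rw [h1]
    simp [ha.symm]

omit [IsDomain O] [IsPrincipalIdealRing O] [Coef O] [Module.Free ℤ L] [Module.Finite ℤ L] in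
theorem cst_mul (c d : RO O) : (cst c * cst d : AO O L) = cst (c * d) := by
  unfold cst
  rw [AddMonoidAlgebra.single_mul_single, add_zero]

theorem fact_aux (h1 : B4S) (h3 : UnitAS) (f : Multiset (AO O L)) :
    (∀ b ∈ f, Irreducible b) → ∀ V : AO O L, Stable V → Associated f.prod V →
      ∃ (c : RO O) (n : ℕ) (G : Fin n → AO O L), c ≠ 0 ∧
        V = cst c * ∏ i, G i ∧ ∀ i, Irreducible (G i) ∧ Wdep (G i) ∧ Stable (G i) ∧
          ∀ lam : L →+ ℤ, Nn lam V → Nn lam (G i) := by
  induction f using Multiset.induction_on with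
  | empty =>
    intro _ V hV hass
    rw [Multiset.prod_zero] at hass
    have hu : IsUnit V := hass.isUnit isUnit_one
    obtain ⟨a, c, hc, hVa⟩ := (h3 O L V).mp hu
    have ha : a = 0 := by
      by_contra hne
      apply hV.1
      rw [hVa]
      simp [hne]
    refine ⟨c, 0, fun i => i.elim0, hc.ne_zero, ?_, fun i => i.elim0⟩
    rw [hVa, ha]
    simp [cst]
  | cons p f ih =>
    intro hirr V hV hass
    rw [Multiset.prod_cons] at hass
    obtain ⟨u, hu⟩ := hass
    have hVeq : V = p * (f.prod * (u : AO O L)) := by rw [← hu]; ring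
    obtain ⟨b, hb1, hb2, hb3⟩ := h1 O L V p (f.prod * (u : AO O L)) hV hVeq
    have hp : Irreducible p := hirr p (Multiset.mem_cons_self p f)
    have hG : Irreducible (mon b * p : AO O L) :=
      (Associated.irreducible_iff (associated_isUnit_mul (isUnit_mon b) p)).mpr hp
    have hH : Associated f.prod (mon (-b) * (f.prod * (u : AO O L)) : AO O L) := by
      refine ⟨(isUnit_mon (-b)).unit * u, ?_⟩
      rw [Units.val_mul, IsUnit.unit_spec]
      ring
    obtain ⟨c, n, G, hc, hprod, hprops⟩ := ih (fun b hb => hirr b (Multiset.mem_cons_of_mem hb)) _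
      hb2 hH
    have hV2 : V = (mon b * p) * (mon (-b) * (f.prod * (u : AO O L))) := by
      have := mon_mul_mon_neg (O := O) b
      calc V = (mon b * mon (-b)) * (p * (f.prod * (u : AO O L))) := by rw [this, one_mul, ← hVeq]
        _ = _ := by ring
    by_cases hw : Wdep (mon b * p : AO O L)
    · refine ⟨c, n + 1, Fin.cons (mon b * p) G, hc, ?_, ?_⟩
      · rw [Fin.prod_cons, hV2, hprod]
        ring
      · intro i
        refine Fin.cases ?_ (fun i => ?_) i
        · rw [Fin.cons_zero]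
          exact ⟨hG, hw, hb1, fun lam hl => ((hb3 lam).1 hl).1⟩
        · rw [Fin.cons_succ]
          obtain ⟨g1, g2, g3, g4⟩ := hprops i
          exact ⟨g1, g2, g3, fun lam hl => g4 lam ((hb3 lam).1 hl).2⟩
    · refine ⟨(mon b * p : AO O L).coeff 0 * c, n, G, mul_ne_zero hb1.1 hc, ?_, ?_⟩
      · rw [← cst_mul, ← eq_cst_of_not_wdep hw hb1.1, mul_assoc, ← hprod, ← hV2]
      · intro i
        obtain ⟨g1, g2, g3, g4⟩ := hprops i
        exact ⟨g1, g2, g3, fun lam hl => g4 lam ((hb3 lam).1 hl).2⟩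

end

theorem fct (h1 : B4S) (h2 : C2S) (h3 : UnitAS) (_h4 : Coeff0S) : FactS := by
  intro O _ _ _ _ L _ _ _ V hV hU
  have hV0 : V ≠ 0 := by
    intro h
    apply hV.1
    rw [h]
    rfl
  obtain ⟨f, hf, hass⟩ := WfDvdMonoid.exists_factors V hV0
  obtain ⟨c, n, G, hc, hprod, hprops⟩ := fact_aux h1 h3 f hf V hV hass
  refine ⟨c, n, G, hc, hprod, fun i => ?_⟩
  obtain ⟨g1, g2, g3, g4⟩ := hprops i
  have hdvd : V = G i * (cst c * ∏ j ∈ Finset.univ.erase i, G j) := by
    rw [hprod, ← Finset.mul_prod_erase Finset.univ G (Finset.mem_univ i)]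
    ring
  have hmain : ∀ lam : L →+ ℤ, Pos lam V → FullAt lam (G i) ∧ Unitary (G i) := by
    intro lam hl
    have hn : Nn lam V := by
      intro a ha
      rcases eq_or_ne a 0 with rfl | h0
      · simp
      · exact (hl a ha h0).le
    have h5 := h2 O L V (G i) _ lam hV hU hl hdvd (g4 lam hn) g3.1
    exact ⟨h5.1, h5.2 g1 g2⟩
  obtain ⟨lam, hlam, -⟩ := hV.2
  exact ⟨g1, g2, g3, (hmain lam hlam).2, fun mu => ⟨g4 mu, fun hm => (hmain mu hm).1⟩⟩

end Pool.Agent.B5.H78
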