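import Pool.Agent.Lib.MP_b5021c_nt.IfaceS1

/-! Row S_BPD: small non-pure factors at two loads, different ports. -/

set_option autoImplicit false

namespace Pool.Agent.B5.H78

open Pool.Agent.B5 Pool.Agent.B5.H71 AddMonoidAlgebra

section

variable {O : Type} [CommRing O] [IsDomain O] [IsPrincipalIdealRing O] [Coef O]
  {L : Type} [AddCommGroup L] [Module.Free ℤ L] [Module.Finite ℤ L]

omit [IsPrincipalIdealRing O] [Coef O] in
/-- The element `1 - κ w^β` behaves like a prime when some functional is `1` at `β`. -/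
theorem exists_dvd_of_dvd_prod (f : L →+ ℤ) (β : L) (hf : f β = 1) (κ : (RO O)ˣ) (ρ : RO O)
    (hρ : ρ ≠ 0) (q : AO O L) (hq : q ≠ 0) (hqf : ∀ a ∈ supp q, f a = 0) {ι : Type}
    (s : Finset ι) (F : ι → AO O L)
    (hdvd : (1 - single β ((κ : (RO O)ˣ) : RO O)) ∣ cst ρ * (q * ∏ i ∈ s, F i)) :
    ∃ i ∈ s, (1 - single β ((κ : (RO O)ˣ) : RO O)) ∣ F i := by
  classical
  have hzero : cl f β hf κ⁻¹ (1 - single β ((κ : (RO O)ˣ) : RO O)) = 0 := by
    have h1 := cl_factor (O := O) f β hf κ⁻¹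
    rwa [inv_inv] at h1
  obtain ⟨g, hg⟩ := hdvd
  have h1 := congrArg (cl f β hf κ⁻¹) hg
  rw [map_mul, map_mul, map_mul, hzero, zero_mul, map_prod, cl_cst] at h1
  have hcst : (cst ρ : AO O (Ker f)) ≠ 0 := by
    intro h
    apply hρ
    have h2 := congrArg (fun G : AO O (Ker f) => G.coeff 0) h
    simpa [cst] using h2
  have hq2 : cl f β hf κ⁻¹ q ≠ 0 := by
    rw [cl_res f β hf κ⁻¹ q hqf]
    intro h
    apply hq
    rw [← em_res (Ker f) q (fun a ha => hqf a ha), h, map_zero]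
  have h3 : ∏ i ∈ s, cl f β hf κ⁻¹ (F i) = 0 := by
    rcases mul_eq_zero.mp h1 with h | h
    · exact absurd h hcst
    · rcases mul_eq_zero.mp h with h | h
      · exact absurd h hq2
      · exact h
  obtain ⟨i, hi, hi2⟩ := Finset.prod_eq_zero_iff.mp h3
  refine ⟨i, hi, ?_⟩
  have h4 := cl_dvd (O := O) f β hf κ⁻¹ (F i)
  rw [hi2, map_zero, sub_zero, inv_inv] at h4
  exact h4

omit [IsDomain O] [IsPrincipalIdealRing O] [Coef O] [Module.Free ℤ L] [Module.Finite ℤ L] in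
theorem coeff_one_sub_single_mul (β a : L) (κ r : RO O) :
    (1 - single β κ) * single a r = (single a r - single (β + a) (κ * r) : AO O L) := by
  rw [sub_mul, one_mul, single_mul_single]

omit [IsDomain O] [IsPrincipalIdealRing O] [Coef O] [Module.Free ℤ L] [Module.Finite ℤ L] in
theorem coeff_two_left (a b : L) (r t : RO O) (hne : b ≠ a) :
    (single a r - single b t : AO O L).coeff a = r := by
  simp [coeff_sub, coeff_single, hne]

omit [IsDomain O] [IsPrincipalIdealRing O] [Coef O] [Module.Free ℤ L] [Module.Finite ℤ L] in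
theorem coeff_two_right (a b : L) (r t : RO O) (hne : b ≠ a) :
    (single a r - single b t : AO O L).coeff b = -t := by
  simp [coeff_sub, coeff_single, hne.symm]

omit [IsDomain O] [IsPrincipalIdealRing O] [Coef O] [Module.Free ℤ L] [Module.Finite ℤ L] in
theorem coeff_two_other (a b c : L) (r t : RO O) (h1 : a ≠ c) (h2 : b ≠ c) :
    (single a r - single b t : AO O L).coeff c = 0 := by
  simp [coeff_sub, coeff_single, h1, h2]

omit [IsDomain O] [IsPrincipalIdealRing O] [Coef O] [AddCommGroup L] [Module.Free ℤ L]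
  [Module.Finite ℤ L] in
theorem coeff_mono_self (a : L) (r : RO O) : (single a r : AO O L).coeff a = r := by
  simp [coeff_single]

omit [IsDomain O] [IsPrincipalIdealRing O] [Coef O] [AddCommGroup L] [Module.Free ℤ L]
  [Module.Finite ℤ L] in
theorem coeff_mono_ne (a b : L) (r : RO O) (h : a ≠ b) : (single a r : AO O L).coeff b = 0 := by
  simp [coeff_single, h]

end

theorem bpd (hqst : QstS) (hqra : QraS) (hunit : UnitAS) (hmul : MmulS) (_hsmall : SmallS) :
    BpdS := by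
  intro O _ _ _ _ P L _ _ _ _ _ phi D S i0 eta₁ eta₂ h c₁ c₂ n₁ n₂ G₁ G₂ hF1 hF2 hne l₁ l₂ b₁ b₂
    j₁ j₂ e₁ e₂ hS1 hS2 hj
  classical
  obtain ⟨j, hjO, hjb2, hjb1⟩ := hj
  have hj₁ : (co (phK phi (co phi i0)) j₁) b₁ = 1 := hS1.bj
  obtain ⟨q, hq0, hX, -, -, hports⟩ := hqst O P L phi D S i0 eta₁ h c₁ n₁ G₁ hF1 l₁ b₁ j₁ e₁ hS1 hj₁
  have hV2 := hqra O P L phi D S i0 eta₁ h c₁ n₁ G₁ hF1 l₁ b₁ j₁ e₁ hS1 hj₁ eta₂
  -- the factor of the second closed element
  set x₂ : AO O (Ker (co phi i0)) := 1 - single b₂ ((e₂⁻¹ : (RO O)ˣ) : RO O) with hx₂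
  have hx₂dvd : x₂ ∣ cl (co phi i0) S h eta₂ D := by
    rw [hF2.eq, ← Finset.mul_prod_erase Finset.univ G₂ (Finset.mem_univ l₂), hS2.eq]
    exact ⟨cst c₂ * (cst ((G₂ l₂).coeff 0) * ∏ i ∈ Finset.univ.erase l₂, G₂ i), by ring⟩
  -- the closing of this factor
  set β : Ker (co (phK phi (co phi i0)) j₁) := prj (co (phK phi (co phi i0)) j₁) b₁ hj₁ b₂ with hβ
  set κ : (RO O)ˣ := e₂⁻¹ * e₁ ^ ((co (phK phi (co phi i0)) j₁) b₂) with hκ
  have hp : cl (co (phK phi (co phi i0)) j₁) b₁ hj₁ e₁ x₂ = 1 - single β ((κ : (RO O)ˣ) : RO O) := by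
    rw [hx₂, map_sub, map_one, cl_single, ← hβ, hκ, Units.val_mul]
  have hdvd : (1 - single β ((κ : (RO O)ˣ) : RO O)) ∣
      cst (1 - (eta₂ : RO O) * ((eta₁⁻¹ : (RO O)ˣ) : RO O)) *
        (q * ∏ i ∈ Finset.univ.erase l₁, res (Ker (co (phK phi (co phi i0)) j₁)) (G₁ i)) := by
    rw [← hX, ← hV2, ← hp]
    exact map_dvd _ hx₂dvd
  -- the functional
  set f : Ker (co (phK phi (co phi i0)) j₁) →+ ℤ := (co phi j).comp ((incl (Ker (co phi i0))).comp (incl (Ker (co (phK phi (co phi i0)) j₁)))) with hf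
  have hfa : ∀ a : Ker (co (phK phi (co phi i0)) j₁), f a = phi ((a : Ker (co phi i0)) : L) j := fun a => rfl
  have hfβ : f β = 1 := by
    rw [hfa, hβ, prj_coe]
    have h1 : phi ((b₂ - (co (phK phi (co phi i0)) j₁) b₂ • b₁ : Ker (co phi i0)) : L) j = phi (b₂ : L) j - (co (phK phi (co phi i0)) j₁) b₂ * phi (b₁ : L) j := by
      have h2 : ((b₂ - (co (phK phi (co phi i0)) j₁) b₂ • b₁ : Ker (co phi i0)) : L) = (b₂ : L) - (co (phK phi (co phi i0)) j₁) b₂ • (b₁ : L) := rfl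
      rw [h2, map_sub, map_zsmul]
      simp
    rw [h1, hjb2, hjb1, mul_zero, sub_zero]
  have hρ : (1 - (eta₂ : RO O) * ((eta₁⁻¹ : (RO O)ˣ) : RO O)) ≠ 0 := by
    intro h0
    apply hne
    have h1 : (eta₂ : RO O) * ((eta₁⁻¹ : (RO O)ˣ) : RO O) = 1 := (sub_eq_zero.mp h0).symm
    have h2 := congrArg (fun x => x * (eta₁ : RO O)) h1
    simp only [mul_assoc, Units.inv_mul, mul_one, one_mul] at h2
    exact (Units.ext h2).symm
  obtain ⟨i, hi, hidvd⟩ := exists_dvd_of_dvd_prod f β hfβ κ _ hρ q hq0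
    (fun a ha => hports a ha j hjO hjb1) _ _ hdvd
  have hil : i ≠ l₁ := Finset.ne_of_mem_erase hi
  -- back to the kernel lattice
  have hresem : em (Ker (co (phK phi (co phi i0)) j₁)) (res (Ker (co (phK phi (co phi i0)) j₁)) (G₁ i)) = G₁ i :=
    em_res (Ker (co (phK phi (co phi i0)) j₁)) (G₁ i) (fun a ha => hS1.other i hil a ha)
  have hdvd2 : (1 - single (β : Ker (co phi i0)) ((κ : (RO O)ˣ) : RO O) : AO O (Ker (co phi i0))) ∣ G₁ i := by
    rw [← hresem]
    have h1 : em (Ker (co (phK phi (co phi i0)) j₁)) (1 - single β ((κ : (RO O)ˣ) : RO O)) =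
        (1 - single (β : Ker (co phi i0)) ((κ : (RO O)ˣ) : RO O) : AO O (Ker (co phi i0))) := by
      rw [map_sub, map_one, em_single]
    rw [← h1]
    exact map_dvd _ hidvd
  obtain ⟨H, hH⟩ := hdvd2
  have hβ0 : (β : Ker (co phi i0)) ≠ 0 := by
    intro h0
    have h1 : β = 0 := Subtype.ext h0
    rw [h1, map_zero] at hfβ
    exact zero_ne_one hfβ
  have hpnot : ¬ IsUnit (1 - single (β : Ker (co phi i0)) ((κ : (RO O)ˣ) : RO O) : AO O (Ker (co phi i0))) := by
    intro hu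
    obtain ⟨a, r, hr, har⟩ := (hunit O (Ker (co phi i0)) _).mp hu
    have h1 := congrArg (fun F : AO O (Ker (co phi i0)) => F.coeff 0) har
    have h2 := congrArg (fun F : AO O (Ker (co phi i0)) => F.coeff (β : Ker (co phi i0))) har
    have h1' : (1 : RO O) = (single a r : AO O (Ker (co phi i0))).coeff 0 := by
      rw [← h1]
      exact (coeff_two_left (O := O) 0 (β : Ker (co phi i0)) 1 _ hβ0).symm
    have h2' : -((κ : (RO O)ˣ) : RO O) =
        (single a r : AO O (Ker (co phi i0))).coeff (β : Ker (co phi i0)) := by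
      rw [← h2]
      exact (coeff_two_right (O := O) 0 (β : Ker (co phi i0)) 1 _ hβ0).symm
    by_cases ha0 : a = 0
    · rw [ha0, coeff_mono_ne _ _ _ hβ0.symm] at h2'
      exact κ.ne_zero (neg_eq_zero.mp h2')
    · rw [coeff_mono_ne _ _ _ ha0] at h1'
      exact one_ne_zero h1'
  have hHu : IsUnit H := ((hF1.irr i).isUnit_or_isUnit hH).resolve_left hpnot
  obtain ⟨a, r, hr, har⟩ := (hunit O (Ker (co phi i0)) H).mp hHu
  have hG : G₁ i = single a r - single ((β : Ker (co phi i0)) + a) (((κ : (RO O)ˣ) : RO O) * r) := by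
    rw [hH, har, coeff_one_sub_single_mul]
  have hne2 : (β : Ker (co phi i0)) + a ≠ a := by
    intro h0
    exact hβ0 (by simpa using h0)
  have hca : (G₁ i).coeff a = r := by
    rw [hG]
    exact coeff_two_left _ _ _ _ hne2
  have hcb : (G₁ i).coeff ((β : Ker (co phi i0)) + a) = -(((κ : (RO O)ˣ) : RO O) * r) := by
    rw [hG]
    exact coeff_two_right _ _ _ _ hne2
  have hcu : IsUnit ((G₁ i).coeff 0) := by
    have h0 : (G₁ i).coeff 0 ≠ 0 := (hF1.st i).1
    rcases eq_or_ne a 0 with ha0 | ha0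
    · rw [ha0] at hca
      rw [hca]
      exact hr
    · rcases eq_or_ne ((β : Ker (co phi i0)) + a) 0 with hb0 | hb0
      · rw [hb0] at hcb
        rw [hcb]
        exact (κ.isUnit.mul hr).neg
      · exfalso
        apply h0
        rw [hG]
        exact coeff_two_other _ _ _ _ _ ha0 hb0
  have hipure : ¬ Pure phi S i0 (G₁ i) := by
    intro hpure
    have h1 := hpure a (by change (G₁ i).coeff a ≠ 0; rw [hca]; exact hr.ne_zero) j hjO
    have h2 := hpure ((β : Ker (co phi i0)) + a) (by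
      change (G₁ i).coeff _ ≠ 0
      rw [hcb]
      exact neg_ne_zero.mpr (κ.isUnit.mul hr).ne_zero) j hjO
    have h3 : phi (((β : Ker (co phi i0)) + a : Ker (co phi i0)) : L) j = f β + phi (a : L) j := by
      have h4 : (((β : Ker (co phi i0)) + a : Ker (co phi i0)) : L) = ((β : Ker (co phi i0)) : L) + (a : L) := rfl
      rw [h4, map_add, hfa]
      rfl
    rw [h3, h1, hfβ] at h2
    norm_num at h2
  have himem : i ∈ snp phi S i0 G₁ := by
    unfold snp
    rw [Finset.mem_filter]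
    exact ⟨Finset.mem_univ _, by rw [(hmul O).2.2 _ hcu]; exact lt_irrefl _, hipure⟩
  have hb₁0 : b₁ ≠ 0 := by
    intro h0
    have h1 := hS1.bj
    rw [h0] at h1
    simp at h1
  have hlmem : l₁ ∈ snp phi S i0 G₁ := by
    unfold snp
    rw [Finset.mem_filter]
    refine ⟨Finset.mem_univ _, by rw [(hmul O).2.2 _ hS1.u0]; exact lt_irrefl _, ?_⟩
    intro hpure
    have h1 : b₁ ∈ supp (G₁ l₁) := by
      change (G₁ l₁).coeff b₁ ≠ 0
      rw [hS1.eq, cst_mul_coeff]
      have h7 : (1 - single b₁ ((e₁⁻¹ : (RO O)ˣ) : RO O) : AO O (Ker (co phi i0))).coeff b₁ =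
          -((e₁⁻¹ : (RO O)ˣ) : RO O) :=
        coeff_two_right (O := O) 0 b₁ 1 _ hb₁0
      rw [h7]
      exact mul_ne_zero hS1.u0.ne_zero (neg_ne_zero.mpr (Units.ne_zero _))
    have h2 := hpure b₁ h1 j₁ hS1.jO
    have h3 := hS1.bj
    rw [h2] at h3
    exact zero_ne_one h3
  exact Finset.one_lt_card.mpr ⟨i, himem, l₁, hlmem, hil⟩

end Pool.Agent.B5.H78
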