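import Pool.Agent.Lib.MP_b5021c_nt.IfaceB

/-! Row DEN: a Laurent polynomial which vanishes on the torus is zero. -/

set_option autoImplicit false

namespace Pool.Agent.B5.H78

open Pool.Agent.B5

theorem exists_char_ne {L : Type} [AddCommGroup L] [Module.Free ℤ L] [Module.Finite ℤ L]
    {a b : L} (hab : a ≠ b) : ∃ u : AddChar L Circle, u a ≠ u b := by
  set B := Module.Free.chooseBasis ℤ L with hB
  obtain ⟨i, hi⟩ : ∃ i, B.coord i a ≠ B.coord i b := by
    by_contra hcon
    push Not at hcon
    exact hab (B.ext_elem fun i => by simpa [Module.Basis.coord_apply] using hcon i)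
  set k : ℤ := B.coord i a - B.coord i b with hk
  have hk0 : k ≠ 0 := sub_ne_zero.mpr hi
  set s : Circle := Circle.exp (Real.pi / k) with hs
  have hsk : s ^ k ≠ 1 := by
    have h1 : s ^ k = Circle.exp Real.pi := by
      rw [hs, ← Circle.exp_zsmul]
      congr 1
      rw [zsmul_eq_mul]
      field_simp
    rw [h1]
    intro h
    have h2 := congrArg (fun x : Circle => (x : ℂ)) h
    simp only [Circle.coe_exp, Circle.coe_one, Complex.exp_pi_mul_I] at h2
    norm_num at h2
  refine ⟨twist 1 ((B.coord i).toAddMonoidHom) s, ?_⟩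
  intro h
  apply hsk
  have h1 : (1 : Circle) * s ^ (B.coord i a) = 1 * s ^ (B.coord i b) := h
  rw [one_mul, one_mul] at h1
  rw [hk, zpow_sub, h1, mul_inv_cancel]

/-- Evaluation at `a` as a character of the dual group. -/
noncomputable def evChar {L : Type} [AddCommGroup L] (a : L) : AddChar L Circle →* ℂ where
  toFun u := (u a : ℂ)
  map_one' := by simp
  map_mul' u v := by simp

theorem eq_zero_of_evC {L : Type} [AddCommGroup L] [Module.Free ℤ L] [Module.Finite ℤ L]
    (p : CA L) (h : ∀ u : AddChar L Circle, evC u p = 0) : p = 0 := by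
  have hinj : Function.Injective (evChar : L → (AddChar L Circle →* ℂ)) := by
    intro a b hab
    by_contra hne
    obtain ⟨u, hu⟩ := exists_char_ne hne
    apply hu
    have h1 := DFunLike.congr_fun hab u
    exact Circle.ext h1
  have hli := (linearIndependent_monoidHom (AddChar L Circle) ℂ).comp evChar hinj
  rw [linearIndependent_iff] at hli
  have h1 : p.coeff = 0 := by
    apply hli
    ext u
    rw [Finsupp.linearCombination_apply, Finsupp.sum, Finset.sum_apply]
    have h2 := h u
    rw [evC_apply, Finsupp.sum] at h2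
    exact h2
  apply AddMonoidAlgebra.ext
  rw [h1]
  rfl

instance infinite_circle : Infinite Circle := by
  refine Infinite.of_injective (fun n : ℕ => Circle.exp (1 / ((n : ℝ) + 1))) ?_
  intro m n hmn
  have hb : ∀ n : ℕ, -Real.pi < 1 / ((n : ℝ) + 1) ∧ 1 / ((n : ℝ) + 1) ≤ Real.pi := by
    intro n
    have h0 : (0 : ℝ) < 1 / ((n : ℝ) + 1) := by positivity
    have h1 : 1 / ((n : ℝ) + 1) ≤ 1 := by
      rw [div_le_one (by positivity)]
      have : (0 : ℝ) ≤ n := Nat.cast_nonneg n
      linarith
    have h2 := Real.pi_gt_three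
    constructor <;> linarith
  have h1 := congrArg (fun z : Circle => Complex.arg z) hmn
  simp only at h1
  rw [Circle.arg_exp (hb m).1 (hb m).2, Circle.arg_exp (hb n).1 (hb n).2] at h1
  have h3 : (m : ℝ) + 1 = n + 1 := by
    have := congrArg (fun x : ℝ => x⁻¹) h1
    simpa using this
  exact_mod_cast (add_right_cancel h3)

theorem eq_zero_of_evR {O : Type} [CommRing O] [Coef O] (Q : RO O) (F : Set Circle)
    (hF : F.Finite) (h : ∀ z : Circle, z ∉ F → evR z Q = 0) : Q = 0 := by
  obtain ⟨n, f, hf⟩ := LaurentPolynomial.exists_T_pow Q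
  have hev : ∀ z : Circle, evR z (Polynomial.toLaurent f) =
      (f.map (Coef.emb : O →+* ℂ)).eval (z : ℂ) := by
    intro z
    unfold evR
    rw [LaurentPolynomial.eval₂_toLaurent, Polynomial.eval_map]
    rfl
  have hroot : ∀ z : Circle, z ∉ F → (f.map (Coef.emb : O →+* ℂ)).eval (z : ℂ) = 0 := by
    intro z hz
    rw [← hev, hf, map_mul, h z hz, zero_mul]
  have hmap : f.map (Coef.emb : O →+* ℂ) = 0 := by
    apply Polynomial.eq_zero_of_infinite_isRoot
    have h1 : (Fᶜ).Infinite := hF.infinite_compl
    have h2 := h1.image (f := fun z : Circle => (z : ℂ)) (Circle.coe_injective.injOn)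
    refine h2.mono ?_
    rintro _ ⟨z, hz, rfl⟩
    exact hroot z hz
  have hf0 : f = 0 := by
    rwa [Polynomial.map_eq_zero_iff emb_inj] at hmap
  rw [hf0, map_zero] at hf
  have h3 := congrArg (fun q => q * LaurentPolynomial.T (-(n : ℤ))) hf
  simp only [zero_mul, mul_assoc, ← LaurentPolynomial.T_add, add_neg_cancel,
    LaurentPolynomial.T_zero, mul_one] at h3
  exact h3.symm

theorem den : DensS := by
  intro O _ _ _ _ L _ _ _
  refine ⟨eq_zero_of_evC, ?_⟩
  intro H hH
  have h1 : ∀ z : Circle, z ∉ {z : Circle | ¬ ∀ u : AddChar L Circle, ev z u H = 0} →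
      spec z H = 0 := by
    intro z hz
    apply eq_zero_of_evC
    intro u
    have h2 : ∀ u : AddChar L Circle, ev z u H = 0 := by
      simpa using hz
    exact h2 u
  apply AddMonoidAlgebra.ext
  apply Finsupp.ext
  intro a
  refine (eq_zero_of_evR (H.coeff a) _ hH ?_).trans rfl
  intro z hz
  rw [← spec_coeff, h1 z hz]
  rfl

end Pool.Agent.B5.H78
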